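import Pool.Agent.N352.JB.Def

/-!
# Project JB: the norms of the divisors are squares
-/

set_option autoImplicit false

open Polynomial

namespace Pool.Agent.N27.JB.Lpn

open Pool.Agent.Y160.SE
open Pool.Agent.N352.JB

section

variable {L Ω : Type} [Field L] [Field Ω] [Algebra L Ω] {f : L[X]}

/-- The norm of a polynomial is a resultant. -/
theorem prod_eq_res (hf : f.Monic) (hs : (f.map (algebraMap L Ω)).Splits) (p : L[X]) :
    ((f.map (algebraMap L Ω)).roots.map fun β => aeval β p).prod =
      algebraMap L Ω (resultant f p) := by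
  have h3 := resultant_eq_prod_eval (f.map (algebraMap L Ω)) (p.map (algebraMap L Ω)) p.natDegree
    natDegree_map_le hs
  rw [(hf.map _).leadingCoeff, one_pow, one_mul, natDegree_map] at h3
  rw [← resultant_map_map, h3]
  congr 1
  apply Multiset.map_congr rfl
  intro β _
  rw [eval_map_algebraMap]

/-- The resultant of `f` and `p` up to squares. -/
theorem res_eq {p c : L[X]} (hp : p.Monic) (hc : p ∣ f - c ^ 2) :
    resultant f p = (-1) ^ (f.natDegree * p.natDegree) * resultant p c ^ 2 := by
  let A := AlgebraicClosure L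
  have h4 : resultant p f = resultant p c ^ 2 := by
    apply (algebraMap L A).injective
    rw [map_pow, ← resultant_map_map, ← resultant_map_map]
    have hsp : (p.map (algebraMap L A)).Splits := IsAlgClosed.splits _
    have h5 := resultant_eq_prod_eval (p.map (algebraMap L A)) (f.map (algebraMap L A)) f.natDegree
      natDegree_map_le hsp
    have h6 := resultant_eq_prod_eval (p.map (algebraMap L A)) (c.map (algebraMap L A)) c.natDegree
      natDegree_map_le hsp
    rw [(hp.map _).leadingCoeff, one_pow, one_mul, natDegree_map] at h5 h6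
    rw [h5, h6, ← Multiset.prod_map_pow]
    congr 1
    apply Multiset.map_congr rfl
    intro ξ hξ
    have h7 : (p.map (algebraMap L A)).eval ξ = 0 := (mem_roots (hp.map _).ne_zero).1 hξ
    obtain ⟨q, hq⟩ := hc
    have h8 := congrArg (fun r => (r.map (algebraMap L A)).eval ξ) hq
    simp only [Polynomial.map_sub, Polynomial.map_pow, Polynomial.map_mul, eval_sub, eval_pow,
      eval_mul] at h8
    rw [h7, zero_mul, sub_eq_zero] at h8
    exact h8
  rw [resultant_comm, h4]

/-- The norm of a constant sign. -/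
theorem prod_sign (hs : (f.map (algebraMap L Ω)).Splits) (d : ℕ) (p : L[X]) :
    ((f.map (algebraMap L Ω)).roots.map fun β => aeval β ((-1) ^ d * p)).prod =
      ((-1) ^ d) ^ f.natDegree * ((f.map (algebraMap L Ω)).roots.map fun β => aeval β p).prod := by
  have h1 : ∀ β : Ω, aeval β ((-1) ^ d * p) = (-1) ^ d * aeval β p := by
    intro β
    rw [map_mul, map_pow, map_neg, map_one]
  simp only [h1]
  rw [Multiset.prod_map_mul, Multiset.map_const', Multiset.prod_replicate,
    ← hs.natDegree_eq_card_roots, natDegree_map]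

theorem lp_sq (hf : f.Monic) (hs : (f.map (algebraMap L Ω)).Splits) (s : Multiset L[X])
    (h : ∀ p ∈ s, p.Monic ∧ ∃ c : L[X], p ∣ f - c ^ 2) :
    ∃ y : L, ((f.map (algebraMap L Ω)).roots.map fun e =>
      aeval e ((s.map fun p => (-1) ^ p.natDegree * p).prod)).prod = algebraMap L Ω (y ^ 2) := by
  induction s using Multiset.induction_on with
  | empty =>
    refine ⟨1, ?_⟩
    simp
  | cons p s ih =>
    obtain ⟨y, hy⟩ := ih fun q hq => h q (Multiset.mem_cons_of_mem hq)
    obtain ⟨h1, c, hc⟩ := h p (Multiset.mem_cons_self p s)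
    refine ⟨resultant p c * y, ?_⟩
    have e : ((f.map (algebraMap L Ω)).roots.map fun β => aeval β
          (((p ::ₘ s).map fun p => (-1) ^ p.natDegree * p).prod)).prod =
        ((f.map (algebraMap L Ω)).roots.map fun β => aeval β ((-1) ^ p.natDegree * p)).prod *
        ((f.map (algebraMap L Ω)).roots.map fun β =>
          aeval β ((s.map fun p => (-1) ^ p.natDegree * p).prod)).prod := by
      rw [← Multiset.prod_map_mul]
      congr 1
      apply Multiset.map_congr rfl
      intro β _
      rw [Multiset.map_cons, Multiset.prod_cons, ← map_mul]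
    rw [e, hy, prod_sign hs, prod_eq_res hf hs, res_eq h1 hc, map_mul, map_pow, map_neg, map_one,
      ← mul_assoc, ← pow_mul, mul_comm p.natDegree, ← mul_pow, neg_one_mul, neg_neg, one_pow,
      one_mul, ← map_mul, mul_pow]

/-- Signs. -/
theorem sign_prod (s : Multiset L[X]) :
    ∃ d : ℕ, s.prod = (-1) ^ d * (s.map fun p => (-1) ^ p.natDegree * p).prod := by
  induction s using Multiset.induction_on with
  | empty => exact ⟨0, by simp⟩
  | cons p s ih =>
    obtain ⟨d, hd⟩ := ih
    refine ⟨d + p.natDegree, ?_⟩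
    rw [Multiset.prod_cons, Multiset.map_cons, Multiset.prod_cons, hd, pow_add]
    have h1 : ((-1 : L[X]) ^ p.natDegree) * (-1) ^ p.natDegree = 1 := by
      rw [← mul_pow, neg_one_mul, neg_neg, one_pow]
    linear_combination (-(-1) ^ d * p * (s.map fun p => (-1) ^ p.natDegree * p).prod) * h1

end

theorem lpn : S_LPN := by
  intro E Ω _ _ _ f hf _ hs s h
  exact lp_sq hf hs s h

theorem sql (h : S_LPN) : S_SQL := by
  intro E Ω _ _ _ f hf hodd hs G hG
  obtain ⟨r, s, hr, hps, rfl⟩ := hG
  have hp : ∀ p : E[X], ∃ c : E[X], p ∈ s → p ∣ f - c ^ 2 := by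
    intro p
    by_cases hp : p ∈ s
    · obtain ⟨c, hc⟩ := (hps p hp).2.2.2
      exact ⟨c, fun _ => hc⟩
    · exact ⟨0, fun h => absurd h hp⟩
  choose c hc using hp
  obtain ⟨y, hy⟩ := h E Ω f hf hodd hs s fun p hp => ⟨(hps p hp).1, c p, hc p hp⟩
  obtain ⟨d, hd⟩ := sign_prod s
  set Q : E[X] := (s.map fun p => (-1) ^ p.natDegree * p).prod with hQ
  obtain ⟨k, hk⟩ := hodd
  have hcop : ∀ p ∈ s, IsCoprime p f := by
    intro p hp
    obtain ⟨-, h2, h3, -⟩ := hps p hp
    exact (Irreducible.coprime_iff_not_dvd h2).2 h3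
  have hroot : ∀ e ∈ (f.map (algebraMap E Ω)).roots, ∀ p : E[X], IsCoprime p f → aeval e p ≠ 0 := by
    intro e he p hpf h0
    have h1 : aeval e f = 0 := by
      have := (mem_roots'.1 he).2
      rwa [IsRoot.def, eval_map_algebraMap] at this
    obtain ⟨a, b, hab⟩ := hpf
    have h2 := congrArg (aeval e) hab
    rw [map_add, map_mul, map_mul, h0, h1, mul_zero, mul_zero, add_zero, map_one] at h2
    exact zero_ne_one h2
  have hQf : IsCoprime Q f := by
    rw [hQ]
    clear_value Q
    clear hy hd hQ hps hc h hk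
    induction s using Multiset.induction_on with
    | empty => simp [isCoprime_one_left]
    | cons p s ih =>
      rw [Multiset.map_cons, Multiset.prod_cons]
      refine IsCoprime.mul_left ?_ (ih fun q hq => hcop q (Multiset.mem_cons_of_mem hq))
      have h2 : IsUnit ((-1 : E[X]) ^ p.natDegree) := (isUnit_one.neg).pow _
      rw [isCoprime_mul_unit_left_left h2]
      exact hcop p (Multiset.mem_cons_self p s)
  have hR0 : resultant f r ≠ 0 := by
    intro h0
    have h1 := prod_eq_res hf hs r
    rw [h0, map_zero, Multiset.prod_eq_zero_iff] at h1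
    obtain ⟨e, he, he0⟩ := Multiset.mem_map.1 h1
    exact hroot e he r hr he0
  have hy0 : y ≠ 0 := by
    intro h0
    rw [h0, zero_pow two_ne_zero, map_zero, Multiset.prod_eq_zero_iff] at hy
    obtain ⟨e, he, he0⟩ := Multiset.mem_map.1 hy
    exact hroot e he Q hQf he0
  refine ⟨s.toList.map fun p => (p, c p), C (resultant f r * y)⁻¹ * r ^ f.natDegree * Q ^ (k + 1),
    ?_, ?_⟩
  · intro p hp
    obtain ⟨a, ha, rfl⟩ := List.mem_map.1 hp
    rw [Multiset.mem_toList] at ha
    refine ⟨(hps a ha).1, hcop a ha, ?_⟩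
    have := hc a ha
    rwa [← dvd_neg, neg_sub] at this
  · intro e he
    have e1 : ((s.toList.map fun p => (p, c p)).map fun p => (-1) ^ p.1.natDegree * p.1).prod =
        Q := by
      rw [List.map_map, hQ]
      conv_rhs => rw [← Multiset.coe_toList s, Multiset.map_coe, Multiset.prod_coe]
      rfl
    have e2 : ((f.map (algebraMap E Ω)).roots.map fun e' => aeval e' (r ^ 2 * s.prod)).prod =
        algebraMap E Ω (resultant f r) ^ 2 * (((-1) ^ d) ^ f.natDegree * algebraMap E Ω (y ^ 2)) := by
      rw [← prod_eq_res hf hs r, ← hy, ← prod_sign hs, ← Multiset.prod_map_pow,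
        ← Multiset.prod_map_mul]
      congr 1
      apply Multiset.map_congr rfl
      intro β _
      rw [hd, map_mul, map_pow]
    rw [e1, e2, hd]
    simp only [map_mul, map_pow, aeval_C, map_neg, map_one, map_inv₀]
    have hR1 : algebraMap E Ω (resultant f r) ≠ 0 := (_root_.map_ne_zero _).2 hR0
    have hy1 : algebraMap E Ω y ≠ 0 := (_root_.map_ne_zero _).2 hy0
    have e3 : (aeval e Q : Ω) ^ f.natDegree * aeval e Q = (aeval e Q ^ (k + 1)) ^ 2 := by
      rw [← pow_succ, hk, ← pow_mul]
      congr 1
      ring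
    field_simp
    linear_combination ((aeval e r ^ 2 * (-1) ^ d) ^ f.natDegree) * e3
end Pool.Agent.N27.JB.Lpn
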